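import Pool.Agent.Helper25_UAU.Values

/-!
# MP_f28000_lc: one-sided sequence maps, the two cases

`F Y` is computable from `Y`, or every r.e. set is computable from `F Y`, for a sparse set `Y`.
-/

set_option autoImplicit false

open Nat.Partrec (Code)
open Pool.Agent.Helper25TD
open Pool.Agent.EFA

namespace Pool.Agent.Helper25UAU

theorem up_le {F : (ℕ → Prop) → (ℕ → Prop)} (hF : Up F) {A B : ℕ → Prop} (hA : REPred A)
    (hB : REPred B) (h : Le A B) : Le (F A) (F B) := by
  have hsnd : Primrec fun n : ℕ => (Nat.unpair n).2 := Primrec.snd.comp Primrec.unpair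
  have h1 : REPred (sj fun _ => A) := by
    unfold sj
    exact SQM.re_comp hA hsnd.to_comp
  have h2 : Le (sj fun _ => A) B := TLE.trans (SQM.sub_le hsnd fun _ => Iff.rfl) h
  have h3 := hF (fun _ => A) B h1 hB h2
  refine TLE.trans ?_ h3
  refine SQM.sub_le (f := fun n => Nat.pair 0 n)
    (Primrec₂.natPair.comp (Primrec.const 0) Primrec.id) fun n => ?_
  unfold sj
  rw [Nat.unpair_pair]

/-- an infinite sum of coded choices: if two values differ then `H` is computable from `F H` -/
theorem le_image {F : (ℕ → Prop) → (ℕ → Prop)} (hF : Up F) {P H : ℕ → Prop} (hP : REPred P)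
    (hH : REPred H) (hPH : Le P H) (hne : F P ≠ F fun _ => False) : Le H (F H) := by
  have hfst : Primrec fun n : ℕ => (Nat.unpair n).1 := Primrec.fst.comp Primrec.unpair
  have hsnd : Primrec fun n : ℕ => (Nat.unpair n).2 := Primrec.snd.comp Primrec.unpair
  have hpc : ∀ c : ℕ, Primrec fun n : ℕ => Nat.pair n c := fun c =>
    Primrec₂.natPair.comp Primrec.id (Primrec.const c)
  have hne : ∃ y, ¬ (F P y ↔ F (fun _ => False) y) := by
    by_contra hcon
    push Not at hcon
    exact hne (funext fun y => propext (hcon y))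
  obtain ⟨y, hy⟩ := hne
  let C : ℕ → ℕ → Prop := fun i x => H i ∧ P x
  have hCre : REPred (sj C) := SQM.re_and (SQM.re_comp hH hfst.to_comp) (SQM.re_comp hP hsnd.to_comp)
  have hCle : Le (sj C) H := by
    refine SQM.tle_sel (x := bo H) (y := bo P) (z := bo fun _ => False)
      hfst hsnd (TLE.refl _) hPH (SQM.bo_false_le _) ?_
    intro n
    by_cases h : H (Nat.unpair n).1
    · rw [if_pos (bo_eq_true.2 h)]
      exact bo_congr (by simp [sj, C, h])
    · rw [if_neg fun h' => h (bo_eq_true.1 h')]
      exact bo_congr (by simp [sj, C, h])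
  have h1 := hF C H hCre hH hCle
  have hCval : ∀ i, C i = if bo H i = true then P else fun _ => False := by
    intro i
    by_cases h : H i
    · rw [if_pos (bo_eq_true.2 h)]
      funext x
      simp [C, h]
    · rw [if_neg fun h' => h (bo_eq_true.1 h')]
      funext x
      simp [C, h]
  refine TLE.trans ?_ h1
  refine SQM.tle_sel (x := bo (sj fun i => F (C i))) (y := fun _ => bo (F P) y)
    (z := fun _ => !(bo (F P) y)) (f := fun n => Nat.pair n y) (g := fun n => n)
    (hpc y) Primrec.id (TLE.refl _) (SQM.tle_const _ _) (SQM.tle_const _ _) ?_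
  intro n
  have hy' : bo (F P) y ≠ bo (F fun _ => False) y := by
    intro h3
    apply hy
    rw [← bo_eq_true (A := F P) (n := y), ← bo_eq_true (A := F fun _ => False) (n := y), h3]
  rw [bo_sj_pair, hCval]
  cases h3 : bo H n <;> cases h4 : bo (F P) y <;> cases h5 : bo (F fun _ => False) y <;>
    simp_all

/-! ### values at finite subsets of a sparse set -/

/-- the value at a finite subset of the range of `r` is decided by its part below `r y + 1` -/
theorem V_mod {V N : ℕ → ℕ → ℕ} {r : ℕ → ℕ} (hgap : ∀ k, r k + 2 ≤ r (k + 1))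
    (hbd : ∀ k j y, j < 2 ^ (r k + 1) → y ≤ k → N j y ≤ r (k + 1))
    (hmod : ∀ j y x, N j y ≤ x → j < 2 ^ x → V (j + 2 ^ x) y = V j y)
    {j : ℕ} (hj : ∀ x, Nat.testBit j x = true → ∃ k, r k = x) (y : ℕ) :
    V j y = V (j % 2 ^ (r y + 1)) y := by
  have hmono : StrictMono r := strictMono_nat_of_lt_succ fun k => by
    have := hgap k
    omega
  have hstep : ∀ k, y ≤ k → V (j % 2 ^ (r (k + 1) + 1)) y = V (j % 2 ^ (r k + 1)) y := by
    intro k hk
    have h1 := hgap k
    have hlt : j % 2 ^ (r k + 1) < 2 ^ (r k + 1) := Nat.mod_lt _ (by positivity)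
    have hlt2 : j % 2 ^ (r k + 1) < 2 ^ r (k + 1) :=
      hlt.trans_le (Nat.pow_le_pow_right (by norm_num) (by omega))
    have hbetween : ∀ x, r k + 1 ≤ x → x < r (k + 1) → Nat.testBit j x = false := by
      intro x hx1 hx2
      by_contra hcon
      rw [Bool.not_eq_false] at hcon
      obtain ⟨k', hk'⟩ := hj x hcon
      have h3 : r k < r k' := by omega
      have h4 : r k' < r (k + 1) := by omega
      have h5 := hmono.lt_iff_lt.1 h3
      have h6 := hmono.lt_iff_lt.1 h4
      omega
    by_cases hb : Nat.testBit j (r (k + 1)) = true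
    · have h2 : j % 2 ^ (r (k + 1) + 1) = j % 2 ^ (r k + 1) + 2 ^ r (k + 1) := by
        apply Nat.eq_of_testBit_eq
        intro x
        have h3 := Nat.testBit_two_pow_mul_add 1 hlt2 x
        rw [mul_one, add_comm] at h3
        rw [h3, Nat.testBit_mod_two_pow, Nat.testBit_mod_two_pow]
        rcases lt_trichotomy x (r (k + 1)) with h4 | h4 | h4
        · rw [if_pos h4]
          by_cases h5 : x < r k + 1
          · have h6 : x < r (k + 1) + 1 := by omega
            simp [h5, h6]
          · rw [hbetween x (by omega) h4]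
            simp
        · rw [if_neg (by omega), h4, Nat.sub_self, hb]
          simp
        · rw [if_neg (by omega)]
          have h5 : ¬ x < r (k + 1) + 1 := by omega
          obtain ⟨d, hd⟩ : ∃ d, x - r (k + 1) = d + 1 := ⟨x - r (k + 1) - 1, by omega⟩
          rw [hd, Nat.testBit_succ]
          simp [h5]
      rw [h2]
      exact hmod _ _ _ (hbd k _ y hlt hk) hlt2
    · rw [Bool.not_eq_true] at hb
      have h2 : j % 2 ^ (r (k + 1) + 1) = j % 2 ^ (r k + 1) := by
        apply Nat.eq_of_testBit_eq
        intro x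
        rw [Nat.testBit_mod_two_pow, Nat.testBit_mod_two_pow]
        by_cases h5 : x < r k + 1
        · have h6 : x < r (k + 1) + 1 := by omega
          simp [h5, h6]
        · by_cases h6 : x < r (k + 1)
          · rw [hbetween x (by omega) h6]
            simp
          · by_cases h7 : x = r (k + 1)
            · rw [h7, hb]
              simp
            · have h8 : ¬ x < r (k + 1) + 1 := by omega
              simp [h5, h8]
      rw [h2]
  have hall : ∀ d, V (j % 2 ^ (r (y + d) + 1)) y = V (j % 2 ^ (r y + 1)) y := by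
    intro d
    induction d with
    | zero => rfl
    | succ d ih => rw [← add_assoc, hstep (y + d) (by omega), ih]
  have h1 := hall j
  have h2 : j < 2 ^ (r (y + j) + 1) := by
    have h3 : y + j ≤ r (y + j) := hmono.le_apply
    have h4 : j < 2 ^ j := Nat.lt_two_pow_self
    exact h4.trans_le (Nat.pow_le_pow_right (by norm_num) (by omega))
  rwa [Nat.mod_eq_of_lt h2] at h1

/-! ### the discontinuity -/

/-- the elements of `Y` which appear (after stage `s`) before `m` appears in `S` -/
def bef (cY cS : Code) (s m z : ℕ) : Prop :=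
  ∃ k, (Code.evaln (k + s) cY z).isSome = true ∧ (Code.evaln k cS m).isSome = false

theorem bef_re (cY cS : Code) (s : ℕ) : REPred (sj (bef cY cS s)) := by
  have h1 : Computable₂ fun (n k : ℕ) => ((Code.evaln (k + s) cY (Nat.unpair n).2).isSome &&
      !(Code.evaln k cS (Nat.unpair n).1).isSome) := by
    have hk : Primrec fun p : ℕ × ℕ => p.2 + s := Primrec.nat_add.comp Primrec.snd (Primrec.const s)
    have hm : Primrec fun p : ℕ × ℕ => (Nat.unpair p.1).1 :=
      Primrec.fst.comp (Primrec.unpair.comp Primrec.fst)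
    have hz : Primrec fun p : ℕ × ℕ => (Nat.unpair p.1).2 :=
      Primrec.snd.comp (Primrec.unpair.comp Primrec.fst)
    have h2 : Primrec fun p : ℕ × ℕ => ((Code.evaln (p.2 + s) cY (Nat.unpair p.1).2).isSome &&
        !(Code.evaln p.2 cS (Nat.unpair p.1).1).isSome) :=
      Primrec.and.comp (Primrec.option_isSome.comp (Code.primrec_evaln.comp
        ((hk.pair (Primrec.const cY)).pair hz)))
        (Primrec.not.comp (Primrec.option_isSome.comp (Code.primrec_evaln.comp
          ((Primrec.snd.pair (Primrec.const cS)).pair hm))))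
    exact h2.to_comp
  have h3 : Partrec₂ fun (n k : ℕ) => (Part.some ((Code.evaln (k + s) cY (Nat.unpair n).2).isSome &&
      !(Code.evaln k cS (Nat.unpair n).1).isSome) : Part Bool) := h1.partrec₂
  have h4 := (Partrec.rfind h3).map (Computable.const ()).to₂
  refine Partrec.of_eq h4 fun n => ?_
  ext a
  simp only [Part.mem_map_iff, Part.mem_assert_iff, Part.mem_some_iff]
  constructor
  · rintro ⟨k, hk, -⟩
    have h5 := (Nat.mem_rfind.1 hk).1
    rw [Part.mem_some_iff] at h5
    have h6 := h5.symm
    rw [Bool.and_eq_true, Bool.not_eq_true'] at h6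
    exact ⟨⟨k, h6⟩, trivial⟩
  · rintro ⟨h5, -⟩
    have h6 : (Nat.rfind fun k => (Part.some ((Code.evaln (k + s) cY (Nat.unpair n).2).isSome &&
        !(Code.evaln k cS (Nat.unpair n).1).isSome) : Part Bool)).Dom := by
      obtain ⟨k, hk1, hk2⟩ := h5
      refine Nat.rfind_dom.2 ⟨k, ?_, fun {m} _ => trivial⟩
      rw [hk1, hk2]
      exact Part.mem_some _
    exact ⟨_, Part.get_mem h6, trivial⟩

/-- monotonicity in the other form -/
theorem isSome_false_mono {c : Code} {m k k' : ℕ} (h : k ≤ k')
    (hk : (Code.evaln k' c m).isSome = false) : (Code.evaln k c m).isSome = false := by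
  by_contra hcon
  rw [Bool.not_eq_false] at hcon
  rw [H36.isSome_mono h hcon] at hk
  exact absurd hk (by decide)

theorem bef_le {Y : ℕ → Prop} {cY : Code} (hcY : ∀ z, Y z ↔ (cY.eval z).Dom) (cS : Code) (s : ℕ) :
    Le (sj (bef cY cS s)) Y := by
  have hdom : ∀ z, Y z ↔ ∃ k, (Code.evaln k cY z).isSome = true := by
    intro z
    rw [hcY, Part.dom_iff_mem]
    constructor
    · rintro ⟨v, hv⟩
      obtain ⟨k, hk⟩ := Code.evaln_complete.1 hv
      exact ⟨k, Option.isSome_iff_exists.2 ⟨v, hk⟩⟩
    · rintro ⟨k, hk⟩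
      obtain ⟨v, hv⟩ := Option.isSome_iff_exists.1 hk
      exact ⟨v, Code.evaln_sound hv⟩
  have hex : ∀ z, ∃ k, ¬ Y z ∨ (Code.evaln (k + s) cY z).isSome = true := by
    intro z
    by_cases hz : Y z
    · obtain ⟨k, hk⟩ := (hdom z).1 hz
      exact ⟨k, Or.inr (H36.isSome_mono (Nat.le_add_right k s) hk)⟩
    · exact ⟨0, Or.inl hz⟩
  classical
  let g : ℕ → ℕ := fun n => Nat.find (hex (Nat.unpair n).2)
  have hsnd : Primrec fun n : ℕ => (Nat.unpair n).2 := Primrec.snd.comp Primrec.unpair
  have hfst : Primrec fun n : ℕ => (Nat.unpair n).1 := Primrec.fst.comp Primrec.unpair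
  -- the search function
  let f : ℕ → ℕ := fun q => (bo Y (Nat.unpair (Nat.unpair q).1).2).toNat *
    (!(Code.evaln ((Nat.unpair q).2 + s) cY (Nat.unpair (Nat.unpair q).1).2).isSome).toNat
  have hmul : TR (bo Y) fun n => (Nat.unpair n).1 * (Nat.unpair n).2 :=
    TR.prim (Primrec.nat_mul.comp hfst hsnd)
  have hf : TR (bo Y) f := by
    have h1 : TR (bo Y) fun q => (bo Y (Nat.unpair (Nat.unpair q).1).2).toNat :=
      (TR.of_le (TLE.refl (bo Y))).comp (TR.prim (hsnd.comp hfst))
    have h2 : Primrec fun q : ℕ =>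
        (!(Code.evaln ((Nat.unpair q).2 + s) cY (Nat.unpair (Nat.unpair q).1).2).isSome).toNat := by
      have h4 : Primrec fun b : Bool => b.toNat := Primrec.dom_finite _
      exact h4.comp (Primrec.not.comp (Primrec.option_isSome.comp (Code.primrec_evaln.comp
        (((Primrec.nat_add.comp hsnd (Primrec.const s)).pair (Primrec.const cY)).pair
          (hsnd.comp hfst)))))
    have h3 := hmul.comp (h1.pair (TR.prim h2))
    refine Nat.RecursiveIn.of_eq h3 fun q => ?_
    simp only [Nat.unpair_pair]
    rfl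
  have hg : TR (bo Y) g := by
    refine TR.rfind hf (fun a => ?_) fun a n hn => ?_
    · have h1 := Nat.find_spec (hex (Nat.unpair a).2)
      simp only [f, Nat.unpair_pair]
      rcases h1 with h1 | h1
      · have h2 : bo Y (Nat.unpair a).2 = false := by
          rw [← Bool.not_eq_true, bo_eq_true]
          exact h1
        rw [h2]
        simp
      · have h2 : (Code.evaln (g a + s) cY (Nat.unpair a).2).isSome = true := h1
        rw [h2]
        simp
    · have h1 := Nat.find_min (hex (Nat.unpair a).2) hn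
      rw [not_or, not_not] at h1
      simp only [f, Nat.unpair_pair]
      rw [bo_eq_true.2 h1.1]
      have h2 : (Code.evaln (n + s) cY (Nat.unpair a).2).isSome = false := by
        rw [← Bool.not_eq_true]
        exact h1.2
      rw [h2]
      simp
  refine TR.to_le ?_
  have h1 : TR (bo Y) fun n => (bo Y (Nat.unpair n).2).toNat :=
    (TR.of_le (TLE.refl (bo Y))).comp (TR.prim hsnd)
  have h2 : Primrec fun q : ℕ =>
      (!(Code.evaln (Nat.unpair q).2 cS (Nat.unpair (Nat.unpair q).1).1).isSome).toNat := by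
    have h4 : Primrec fun b : Bool => b.toNat := Primrec.dom_finite _
    exact h4.comp (Primrec.not.comp (Primrec.option_isSome.comp (Code.primrec_evaln.comp
      ((hsnd.pair (Primrec.const cS)).pair (hfst.comp hfst)))))
  have hid : TR (bo Y) fun n => n := TR.prim Primrec.id
  have h3 := (TR.prim (x := bo Y) h2).comp (hid.pair hg)
  have h4 := hmul.comp (h1.pair h3)
  refine Nat.RecursiveIn.of_eq h4 fun n => ?_
  simp only [Nat.unpair_pair]
  have key : bo (sj (bef cY cS s)) n = (bo Y (Nat.unpair n).2 &&
      !(Code.evaln (g n) cS (Nat.unpair n).1).isSome) := by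
    rw [Bool.eq_iff_iff, bo_eq_true, Bool.and_eq_true, bo_eq_true, Bool.not_eq_true']
    unfold sj bef
    constructor
    · rintro ⟨k, hk1, hk2⟩
      refine ⟨(hdom _).2 ⟨_, hk1⟩, isSome_false_mono ?_ hk2⟩
      exact Nat.find_min' (hex (Nat.unpair n).2) (Or.inr hk1)
    · rintro ⟨hY, h5⟩
      rcases Nat.find_spec (hex (Nat.unpair n).2) with h6 | h6
      · exact absurd hY h6
      · exact ⟨g n, h6, h5⟩
  rw [key]
  cases bo Y (Nat.unpair n).2 <;> cases (Code.evaln (g n) cS (Nat.unpair n).1).isSome <;> rfl

end Pool.Agent.Helper25UAU
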