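import Pool.Agent.Helper25_UAU.Jump

/-!
# MP_f28000_lc: the jump of a set is not computable from the set
-/

set_option autoImplicit false

open Nat.Partrec (Code)
open Pool.Agent.Helper25TD
open Pool.Agent.EFA

namespace Pool.Agent.Helper25UAU

/-- every set that is r.e. in `H` is computable from `X`: the jump of `H` is computable from `X` -/
def JumpLe (H X : ℕ → Prop) : Prop :=
  ∀ f : ℕ →. ℕ, Nat.RecursiveIn {chi (bo H)} f → Le (fun m => (f m).Dom) X

/-- the list with the code `c` -/
def lst (c : ℕ) : List Bool := (Encodable.decode (α := List Bool) c).getD []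

theorem lst_encode (l : List Bool) : lst (Encodable.encode l) = l := by
  unfold lst
  rw [Encodable.encodek]
  rfl

theorem primrec_lst : Primrec lst :=
  Primrec.option_getD.comp Primrec.decode (Primrec.const [])

theorem TR_encode_pre (x : ℕ → Bool) : TR x fun n => Encodable.encode (pre x n) := by
  have hsnd : Primrec fun n : ℕ => (Nat.unpair n).2 := Primrec.snd.comp Primrec.unpair
  have hfst : Primrec fun n : ℕ => (Nat.unpair n).1 := Primrec.fst.comp Primrec.unpair
  have h1 : Primrec fun w : ℕ =>
      Encodable.encode (lst (Nat.unpair w).1 ++ [decide ((Nat.unpair w).2 = 1)]) := by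
    refine Primrec.encode.comp (Primrec.list_append.comp (primrec_lst.comp hfst) ?_)
    refine Primrec.list_cons.comp ?_ (Primrec.const [])
    exact PrimrecPred.decide (Primrec.eq.comp hsnd (Primrec.const 1))
  have h2 : TR x fun q => (x (Nat.unpair (Nat.unpair q).2).1).toNat :=
    (TR.of_le (TLE.refl x)).comp (TR.prim (hfst.comp hsnd))
  have h3 : TR x fun q => (Nat.unpair (Nat.unpair q).2).2 := TR.prim (hsnd.comp hsnd)
  have h4 := (TR.prim (x := x) h1).comp (h3.pair h2)
  have h5 := (TR.prec (TR.prim (x := x) (Primrec.const (Encodable.encode ([] : List Bool)))) h4).comp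
    (TR.prim (Primrec₂.natPair.comp (Primrec.const 0) Primrec.id))
  have key : ∀ n : ℕ, (Nat.rec (motive := fun _ => ℕ) (Encodable.encode ([] : List Bool))
      (fun y i => Encodable.encode (lst i ++ [decide ((x y).toNat = 1)])) n : ℕ) =
        Encodable.encode (pre x n) := by
    intro n
    induction n with
    | zero => rfl
    | succ n ih =>
      change Encodable.encode (lst (Nat.rec _ _ n) ++ [decide ((x n).toNat = 1)]) = _
      rw [ih, lst_encode, Helper25TD.pre_succ]
      cases x n <;> rfl
  refine Nat.RecursiveIn.of_eq h5 fun n => ?_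
  simp only [Nat.unpair_pair, id]
  rw [key n]

theorem not_jumpLe_self (H : ℕ → Prop) : ¬ JumpLe H H := by
  intro hJ
  let x := bo H
  let c0 : ℕ := Encodable.encode (some 0 : Option ℕ)
  have hsnd : Primrec fun n : ℕ => (Nat.unpair n).2 := Primrec.snd.comp Primrec.unpair
  have hfst : Primrec fun n : ℕ => (Nat.unpair n).1 := Primrec.fst.comp Primrec.unpair
  -- the search
  let f : ℕ → ℕ := fun q =>
    if Code.evaln (Nat.unpair (Nat.unpair q).2).2 (Denumerable.ofNat Code (Nat.unpair q).1)
      (Nat.pair (Encodable.encode (pre x (Nat.unpair (Nat.unpair q).2).1)) (Nat.unpair q).1) =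
        some c0 then 0 else 1
  have hf : TR x f := by
    have h1 : Primrec fun r : ℕ =>
        if Code.evaln (Nat.unpair (Nat.unpair (Nat.unpair r).2).2).2
          (Denumerable.ofNat Code (Nat.unpair (Nat.unpair r).2).1)
          (Nat.pair (Nat.unpair r).1 (Nat.unpair (Nat.unpair r).2).1) = some c0 then 0 else 1 := by
      have he : Primrec fun r : ℕ => (Nat.unpair (Nat.unpair r).2).1 := hfst.comp hsnd
      have ht : Primrec fun r : ℕ => (Nat.unpair (Nat.unpair (Nat.unpair r).2).2).2 :=
        hsnd.comp (hsnd.comp hsnd)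
      refine Primrec.ite (Primrec.eq.comp (Code.primrec_evaln.comp
        ((ht.pair ((Primrec.ofNat Code).comp he)).pair (Primrec₂.natPair.comp hfst he)))
        (Primrec.const (some c0))) (Primrec.const 0) (Primrec.const 1)
    have h2 : TR x fun q => Encodable.encode (pre x (Nat.unpair (Nat.unpair q).2).1) :=
      (TR_encode_pre x).comp (TR.prim (hfst.comp hsnd))
    have h3 := (TR.prim (x := x) h1).comp (h2.pair (TR.prim Primrec.id))
    refine Nat.RecursiveIn.of_eq h3 fun q => ?_
    simp only [Nat.unpair_pair, id, f]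
  have hu := Nat.RecursiveIn.rfind hf
  have hD := hJ _ hu
  set u : ℕ →. ℕ := fun a => Nat.rfind fun n => (fun m => decide (m = 0)) <$>
    ((fun n => (f n : Part ℕ)) : ℕ →. ℕ) (Nat.pair a n) with hudef
  have hdom : ∀ e, (u e).Dom ↔ ∃ w, f (Nat.pair e w) = 0 := by
    intro e
    rw [hudef]
    simp only
    rw [Nat.rfind_dom]
    constructor
    · rintro ⟨n, hn, -⟩
      refine ⟨n, ?_⟩
      simpa using hn
    · rintro ⟨n, hn⟩
      refine ⟨n, ?_, fun {m} _ => ?_⟩
      · simp [hn]
      · exact trivial
  obtain ⟨G, hG, hGs, hGc⟩ := Helper56TB.exists_approx x (RecursiveIn.iff_nat.1 hD)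
  have hcG : Primrec fun q : ℕ => Encodable.encode (G (lst (Nat.unpair q).1) (Nat.unpair q).2) :=
    Primrec.encode.comp (hG.comp (primrec_lst.comp hfst) hsnd)
  obtain ⟨c, hc⟩ := Code.exists_code.1 (Partrec.nat_iff.1 hcG.to_comp.partrec)
  let e₀ := Encodable.encode c
  have hev : ∀ n, c.eval (Nat.pair (Encodable.encode (pre x n)) e₀) =
      Part.some (Encodable.encode (G (pre x n) e₀)) := by
    intro n
    rw [hc]
    simp [lst_encode]
  have h1 : (u e₀).Dom ↔ ∃ n, G (pre x n) e₀ = some 0 := by
    rw [hdom]
    constructor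
    · rintro ⟨w, hw⟩
      simp only [f, Nat.unpair_pair] at hw
      split_ifs at hw with h2
      have h3 : Denumerable.ofNat Code e₀ = c := Denumerable.ofNat_encode c
      rw [h3] at h2
      have h4 : c0 ∈ c.eval (Nat.pair (Encodable.encode (pre x (Nat.unpair w).1)) e₀) :=
        Code.evaln_sound h2
      rw [hev] at h4
      refine ⟨(Nat.unpair w).1, ?_⟩
      exact (Encodable.encode_injective (Part.mem_some_iff.1 h4)).symm
    · rintro ⟨n, hn⟩
      have h4 : c0 ∈ c.eval (Nat.pair (Encodable.encode (pre x n)) e₀) := by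
        rw [hev, hn]
        exact Part.mem_some _
      obtain ⟨t, ht⟩ := Code.evaln_complete.1 h4
      refine ⟨Nat.pair n t, ?_⟩
      simp only [f, Nat.unpair_pair]
      have h3 : Denumerable.ofNat Code e₀ = c := Denumerable.ofNat_encode c
      have ht' : Code.evaln t c (Nat.pair (Encodable.encode (pre x n)) e₀) = some c0 := ht
      rw [h3, if_pos ht']
  have h2 : (∃ n, G (pre x n) e₀ = some 0) ↔ ¬ (u e₀).Dom := by
    have h3 : chi (bo fun m => (u m).Dom) e₀ = Part.some (bo (fun m => (u m).Dom) e₀).toNat := rfl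
    constructor
    · rintro ⟨n, hn⟩
      have h4 := hGs _ _ _ hn
      rw [h3] at h4
      have h5 := Part.mem_some_iff.1 h4
      intro h6
      rw [bo_eq_true (A := fun m => (u m).Dom) (n := e₀) |>.2 h6] at h5
      exact absurd h5 (by decide)
    · intro h6
      have h4 : (bo (fun m => (u m).Dom) e₀) = false := by
        rw [← Bool.not_eq_true, bo_eq_true]
        exact h6
      have h5 : 0 ∈ chi (bo fun m => (u m).Dom) e₀ := by
        rw [h3, h4]
        exact Part.mem_some _
      obtain ⟨N, hN⟩ := hGc _ _ h5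
      exact ⟨N, hN N le_rfl⟩
  rw [← h1] at h2
  exact iff_not_self h2

end Pool.Agent.Helper25UAU
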