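import Pool.Agent.Helper25_UAU.Core

/-!
# MP_f28000_lc: one-sided sequence maps, the dichotomy
-/

set_option autoImplicit false

open Nat.Partrec (Code)
open Pool.Agent.Helper25TD
open Pool.Agent.EFA

namespace Pool.Agent.Helper25UAU

theorem exists_stage {Y : ℕ → Prop} {cY : Code} (hcY : ∀ z, Y z ↔ (cY.eval z).Dom) :
    ∀ n : ℕ, ∃ s, ∀ z < n, Y z → (Code.evaln s cY z).isSome = true := by
  intro n
  induction n with
  | zero => exact ⟨0, fun z hz => absurd hz (Nat.not_lt_zero z)⟩
  | succ n ih =>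
    obtain ⟨s, hs⟩ := ih
    by_cases hn : Y n
    · obtain ⟨v, hv⟩ := Part.dom_iff_mem.1 ((hcY n).1 hn)
      obtain ⟨k, hk⟩ := Code.evaln_complete.1 hv
      refine ⟨max s k, fun z hz hYz => ?_⟩
      rcases Nat.lt_succ_iff_lt_or_eq.1 hz with h | h
      · exact H36.isSome_mono (le_max_left _ _) (hs z h hYz)
      · subst h
        exact H36.isSome_mono (le_max_right _ _) (Option.isSome_iff_exists.2 ⟨v, hk⟩)
    · refine ⟨s, fun z hz hYz => ?_⟩
      rcases Nat.lt_succ_iff_lt_or_eq.1 hz with h | h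
      · exact hs z h hYz
      · subst h
        exact absurd hYz hn

theorem main {F : (ℕ → Prop) → (ℕ → Prop)} (hF : Up F)
    (h0 : Computable (bo (F fun _ => False))) {A : ℕ → Prop} (hA : REPred A) :
    ∃ Y : ℕ → Prop, REPred Y ∧ Le A Y ∧ Le Y A ∧
      ((∀ S, REPred S → Le S (F Y)) ∨
        (Le (F Y) Y ∧ ∀ y, ∃ j, bo (F Y) y = bo (F (fs j)) y)) := by
  obtain ⟨V, hV, hVF⟩ := exists_V hF h0
  obtain ⟨N, hN, hmod⟩ := exists_N hF h0 hV hVF
  obtain ⟨r, hr, hgap, hbd⟩ := H59.spr N hN
  obtain ⟨hYre, hAY, hYA⟩ := H23.cod r hr hgap A hA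
  obtain ⟨Y, hYdef⟩ : ∃ Y : ℕ → Prop, Y = fun z => ∃ x, A x ∧ r x = z := ⟨_, rfl⟩
  rw [← hYdef] at hYre hAY hYA
  have hYr : ∀ z, Y z → ∃ k, r k = z := by
    intro z hz
    rw [hYdef] at hz
    obtain ⟨x, -, hx⟩ := hz
    exact ⟨x, hx⟩
  refine ⟨Y, hYre, hAY, hYA, ?_⟩
  by_cases h : ∀ y j, (∀ x, Nat.testBit j x = (decide (x < r y + 1) && bo Y x)) →
      V j y = (bo (F Y) y).toNat
  · refine Or.inr ⟨H19.cmp V hV r hr Y (F Y) h, fun y => ⟨H19.pc (bo Y) (r y + 1), ?_⟩⟩
    have h1 := h y _ fun x => H19.testBit_pc (bo Y) (r y + 1) x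
    rw [hVF] at h1
    cases h2 : bo (F Y) y <;> cases h3 : bo (F (fs (H19.pc (bo Y) (r y + 1)))) y <;>
      rw [h2, h3] at h1 <;> simp_all
  · refine Or.inl fun S hS => ?_
    push Not at h
    obtain ⟨y, j, hj, hne⟩ := h
    obtain ⟨cY, hcY⟩ := H36.exists_cH hYre
    obtain ⟨cS, hcS⟩ := H36.exists_cH hS
    obtain ⟨s, hs⟩ := exists_stage hcY (r y + 1)
    have h1 := hF (bef cY cS s) Y (bef_re cY cS s) hYre (bef_le hcY cS s)
    have hsub : ∀ m z, bef cY cS s m z → Y z := by
      rintro m z ⟨k, hk, -⟩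
      obtain ⟨v, hv⟩ := Option.isSome_iff_exists.1 hk
      exact (hcY z).2 (Part.dom_iff_mem.2 ⟨v, Code.evaln_sound hv⟩)
    have hno : ∀ m, ¬ S m → bo (F (bef cY cS s m)) y = bo (F Y) y := by
      intro m hm
      have h2 : bef cY cS s m = Y := by
        funext z
        refine propext ⟨hsub m z, fun hz => ?_⟩
        obtain ⟨v, hv⟩ := Part.dom_iff_mem.1 ((hcY z).1 hz)
        obtain ⟨k, hk⟩ := Code.evaln_complete.1 hv
        refine ⟨k, H36.isSome_mono (Nat.le_add_right k s) (Option.isSome_iff_exists.2 ⟨v, hk⟩), ?_⟩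
        by_contra hcon
        rw [Bool.not_eq_false] at hcon
        obtain ⟨w, hw⟩ := Option.isSome_iff_exists.1 hcon
        exact hm ((hcS m).2 (Part.dom_iff_mem.2 ⟨w, Code.evaln_sound hw⟩))
      rw [h2]
    have hyes : ∀ m, S m → bo (F (bef cY cS s m)) y ≠ bo (F Y) y := by
      intro m hm
      obtain ⟨w, hw⟩ := Part.dom_iff_mem.1 ((hcS m).1 hm)
      obtain ⟨k₀, hk₀⟩ := Code.evaln_complete.1 hw
      have hk₀' : (Code.evaln k₀ cS m).isSome = true := Option.isSome_iff_exists.2 ⟨w, hk₀⟩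
      have hfin : ∀ x, k₀ + s ≤ x → bo (bef cY cS s m) x = false := by
        intro x hx
        rw [← Bool.not_eq_true, bo_eq_true]
        rintro ⟨k, hk1, hk2⟩
        obtain ⟨v, hv⟩ := Option.isSome_iff_exists.1 hk1
        have h2 := Code.evaln_bound hv
        have h3 : k < k₀ := by
          by_contra hcon
          rw [H36.isSome_mono (not_lt.1 hcon) hk₀'] at hk2
          exact absurd hk2 (by decide)
        omega
      obtain ⟨j', hj'⟩ := H36.exists_fs (k₀ + s) (bo (bef cY cS s m)) hfin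
      have h2 : bef cY cS s m = fs j' := by
        funext z
        unfold fs
        rw [hj', bo_eq_true]
      have h3 : V j' y = V (j' % 2 ^ (r y + 1)) y := by
        refine V_mod hgap hbd hmod (fun x hx => ?_) y
        rw [hj', bo_eq_true] at hx
        exact hYr x (hsub m x hx)
      have h4 : j' % 2 ^ (r y + 1) = j := by
        apply Nat.eq_of_testBit_eq
        intro x
        rw [Nat.testBit_mod_two_pow, hj, hj']
        by_cases hx : x < r y + 1
        · have h5 : bo (bef cY cS s m) x = bo Y x := by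
            refine bo_congr ⟨hsub m x, fun hYx => ⟨0, ?_, ?_⟩⟩
            · rw [Nat.zero_add]
              exact hs x hx hYx
            · by_contra hcon
              rw [Bool.not_eq_false] at hcon
              obtain ⟨u, hu⟩ := Option.isSome_iff_exists.1 hcon
              exact absurd (Code.evaln_bound hu) (Nat.not_lt_zero m)
          rw [h5]
        · simp [hx]
      intro h5
      apply hne
      rw [← h4, ← h3, hVF, ← h2, h5]
    refine TLE.trans ?_ h1
    refine SQM.tle_sel (x := bo (sj fun i => F (bef cY cS s i))) (y := fun _ => !(bo (F Y) y))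
      (z := fun _ => bo (F Y) y) (f := fun n => Nat.pair n y) (g := fun n => n)
      (Primrec₂.natPair.comp Primrec.id (Primrec.const y)) Primrec.id (TLE.refl _)
      (SQM.tle_const _ _) (SQM.tle_const _ _) ?_
    intro n
    rw [bo_sj_pair]
    by_cases hn : S n
    · have h2 := hyes n hn
      rw [bo_eq_true.2 hn]
      cases h3 : bo (F (bef cY cS s n)) y <;> cases h4 : bo (F Y) y <;> simp_all
    · have h2 := hno n hn
      have h5 : bo S n = false := by
        rw [← Bool.not_eq_true, bo_eq_true]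
        exact hn
      rw [h5, h2]
      cases bo (F Y) y <;> rfl

theorem fs_comp (j : ℕ) : Computable (bo (fs j)) := by
  refine (testBit_comp.comp ((Computable.const j).pair Computable.id)).of_eq fun n => ?_
  rw [Bool.eq_iff_iff, bo_eq_true]
  rfl

/-- **The dichotomy.** -/
theorem dich {F : (ℕ → Prop) → (ℕ → Prop)} (hF : Up F)
    (h0 : Computable (bo (F fun _ => False))) :
    (∀ H, REPred H → Computable (bo (F H)) ∨ ∀ S, REPred S → Le S (F H)) ∨
    (∀ H, REPred H → (Le (F H) H ∧ Le H (F H)) ∨ ∀ S, REPred S → Le S (F H)) := by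
  by_cases hc : ∀ j, F (fs j) = F fun _ => False
  · refine Or.inl fun H hH => ?_
    obtain ⟨Y, hY, hHY, hYH, h⟩ := main hF h0 hH
    rcases h with h | ⟨-, h⟩
    · exact Or.inr fun S hS => TLE.trans (h S hS) (up_le hF hY hH hYH)
    · left
      have h1 : F Y = F fun _ => False := by
        funext y
        obtain ⟨j, hj⟩ := h y
        rw [hc j] at hj
        rw [← bo_eq_true (A := F Y), ← bo_eq_true (A := F fun _ => False), hj]
      have h2 := up_le hF hH hY hHY
      rw [h1] at h2
      exact comp_of_le h0 h2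
  · right
    push Not at hc
    obtain ⟨j, hj⟩ := hc
    intro H hH
    obtain ⟨Y, hY, hHY, hYH, h⟩ := main hF h0 hH
    rcases h with h | ⟨h, -⟩
    · exact Or.inr fun S hS => TLE.trans (h S hS) (up_le hF hY hH hYH)
    · refine Or.inl ⟨?_, ?_⟩
      · exact TLE.trans (up_le hF hH hY hHY) (TLE.trans h hYH)
      · exact le_image hF (re_of_comp (fs_comp j)) hH (le_of_comp (fs_comp j) H) hj

/-- **Order embeddings.** -/
theorem emb {F : (ℕ → Prop) → (ℕ → Prop)} (hF : Up F)
    (h0 : Computable (bo (F fun _ => False))) (hre : ∀ A, REPred A → REPred (F A))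
    (href : ∀ A B, REPred A → REPred B → Le (F A) (F B) → Le A B) :
    ∀ H, REPred H → Le (F H) H ∧ Le H (F H) := by
  intro H hH
  have key : (∀ S, REPred S → Le S (F H)) → Le (F H) H ∧ Le H (F H) := fun h =>
    ⟨href _ _ (hre H hH) hH (h _ (hre _ (hre H hH))), h H hH⟩
  rcases dich hF h0 with h | h
  · rcases h H hH with h1 | h1
    · have h2 : Le H fun _ => False := href _ _ hH re_false (le_of_comp h1 _)
      have h3 : Computable (bo H) := comp_of_le (by rw [bo_false]; exact Computable.const false) h2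
      exact ⟨le_of_comp h1 _, le_of_comp h3 _⟩
    · exact key h1
  · rcases h H hH with h1 | h1
    · exact h1
    · exact key h1

end Pool.Agent.Helper25UAU
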