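import Pool.Agent.Helper25_UAU.Dich
import Pool.Agent.Helper56_TB.Prefix
import Pool.Agent.Helper4_RED.Re

/-!
# MP_f28000_lc: one-sided sequence maps, the family which codes the jump

For r.e. sets `Y ≤ H` and a partial function `f` recursive in `H` we build a uniformly r.e. sequence
`fam 0, fam 1, ...` which is computable from `H` uniformly, with `fam m = Y` if `f m` is undefined, and
`fam m` a finite subset of `Y` if `f m` is defined.
-/

set_option autoImplicit false

open Nat.Partrec (Code)
open Pool.Agent.Helper25TD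
open Pool.Agent.EFA

namespace Pool.Agent.Helper25UAU

/-- the elements of `Y` at stage `t` -/
def yb (cY : Code) (t z : ℕ) : Bool := (Code.evaln t cY z).isSome

/-- the length of the shortest initial segment which gives a computation at stage `t`
(`t + 1` if there is none) -/
def nn (cY : Code) (G : List Bool → ℕ → Option ℕ) (m t : ℕ) : ℕ :=
  (List.range (t + 1)).findIdx fun n => (G (pre (yb cY t) n) m).isSome

/-- the computation at stage `t` survives the next stage -/
def bel (cY : Code) (G : List Bool → ℕ → Option ℕ) (m t : ℕ) : Bool :=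
  decide (nn cY G m t ≤ t) &&
    decide (pre (yb cY (t + 1)) (nn cY G m t) = pre (yb cY t) (nn cY G m t))

/-- the family -/
def fam (cY cH : Code) (G : List Bool → ℕ → Option ℕ) (s m z : ℕ) : Prop :=
  ∃ t, yb cY (t + s) z = true ∧ (t = 0 ∨ bel cH G m t = false)

theorem pre_eq_iff {x y : ℕ → Bool} {n : ℕ} : pre x n = pre y n ↔ ∀ i < n, x i = y i := by
  unfold pre
  rw [List.map_inj_left]
  simp

section

variable {cY : Code} {G : List Bool → ℕ → Option ℕ} {Y : ℕ → Prop}

theorem yb_mono {t u z : ℕ} (h : t ≤ u) (ht : yb cY t z = true) : yb cY u z = true :=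
  H36.isSome_mono h ht

theorem yb_sound (hcY : ∀ z, Y z ↔ (cY.eval z).Dom) {t z : ℕ} (h : yb cY t z = true) : Y z := by
  obtain ⟨v, hv⟩ := Option.isSome_iff_exists.1 h
  exact (hcY z).2 (Part.dom_iff_mem.2 ⟨v, Code.evaln_sound hv⟩)

theorem yb_complete (hcY : ∀ z, Y z ↔ (cY.eval z).Dom) {z : ℕ} (h : Y z) :
    ∃ t, yb cY t z = true := by
  obtain ⟨v, hv⟩ := Part.dom_iff_mem.1 ((hcY z).1 h)
  obtain ⟨k, hk⟩ := Code.evaln_complete.1 hv
  exact ⟨k, Option.isSome_iff_exists.2 ⟨v, hk⟩⟩

theorem nn_spec {m t : ℕ} (h : nn cY G m t ≤ t) :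
    (G (pre (yb cY t) (nn cY G m t)) m).isSome = true := by
  have hlt : (List.range (t + 1)).findIdx (fun n => (G (pre (yb cY t) n) m).isSome) <
      (List.range (t + 1)).length := by
    rw [List.length_range]
    exact Nat.lt_succ_of_le h
  have h1 := List.findIdx_getElem (w := hlt)
  rw [List.getElem_range] at h1
  exact h1

theorem nn_min {m t n : ℕ} (h : n < nn cY G m t) : (G (pre (yb cY t) n) m).isSome = false := by
  have h3 := List.not_of_lt_findIdx h
  rw [List.getElem_range] at h3
  exact h3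

theorem nn_eq {m t n : ℕ} (hn : n ≤ t) (h1 : (G (pre (yb cY t) n) m).isSome = true)
    (h2 : ∀ k < n, (G (pre (yb cY t) k) m).isSome = false) : nn cY G m t = n := by
  have hlt : n < (List.range (t + 1)).length := by
    rw [List.length_range]
    exact Nat.lt_succ_of_le hn
  refine (List.findIdx_eq hlt).2 ⟨?_, fun j hj => ?_⟩
  · rw [List.getElem_range]
    exact h1
  · rw [List.getElem_range]
    exact h2 j hj

/-- a change of the stage which does not change the relevant initial segment -/
theorem nn_stable {m t u : ℕ} (htu : t ≤ u) (h : nn cY G m t ≤ t)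
    (hp : pre (yb cY u) (nn cY G m t) = pre (yb cY t) (nn cY G m t)) :
    nn cY G m u = nn cY G m t := by
  have hp' : ∀ k ≤ nn cY G m t, pre (yb cY u) k = pre (yb cY t) k := fun k hk =>
    pre_eq_iff.2 fun i hi => pre_eq_iff.1 hp i (hi.trans_le hk)
  refine nn_eq (h.trans htu) ?_ fun k hk => ?_
  · rw [hp]
    exact nn_spec h
  · rw [hp' k hk.le]
    exact nn_min hk

theorem bel_iff {m t : ℕ} : bel cY G m t = true ↔ nn cY G m t ≤ t ∧
    pre (yb cY (t + 1)) (nn cY G m t) = pre (yb cY t) (nn cY G m t) := by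
  unfold bel
  rw [Bool.and_eq_true, decide_eq_true_iff, decide_eq_true_iff]

theorem bel_all (hcY : ∀ z, Y z ↔ (cY.eval z).Dom) {m t : ℕ}
    (h : ∀ u, t ≤ u → bel cY G m u = true) :
    nn cY G m t ≤ t ∧ pre (yb cY t) (nn cY G m t) = pre (bo Y) (nn cY G m t) := by
  have h0 := (bel_iff.1 (h t le_rfl)).1
  have key : ∀ d, nn cY G m (t + d) = nn cY G m t ∧
      pre (yb cY (t + d)) (nn cY G m t) = pre (yb cY t) (nn cY G m t) := by
    intro d
    induction d with
    | zero => exact ⟨rfl, rfl⟩
    | succ d ih =>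
      have h1 := (bel_iff.1 (h (t + d) (Nat.le_add_right t d))).2
      rw [ih.1] at h1
      have h2 : pre (yb cY (t + (d + 1))) (nn cY G m t) = pre (yb cY t) (nn cY G m t) :=
        h1.trans ih.2
      exact ⟨nn_stable (Nat.le_add_right t _) h0 h2, h2⟩
  refine ⟨h0, pre_eq_iff.2 fun i hi => ?_⟩
  rw [Bool.eq_iff_iff, bo_eq_true]
  refine ⟨yb_sound hcY, fun hY => ?_⟩
  obtain ⟨u, hu⟩ := yb_complete hcY hY
  have h1 := pre_eq_iff.1 (key u).2 i hi
  rw [← h1]
  exact yb_mono (Nat.le_add_left u t) hu

theorem bel_of (hcY : ∀ z, Y z ↔ (cY.eval z).Dom) {m t : ℕ} (h0 : nn cY G m t ≤ t)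
    (hp : pre (yb cY t) (nn cY G m t) = pre (bo Y) (nn cY G m t)) :
    ∀ u, t ≤ u → bel cY G m u = true := by
  have key : ∀ u, t ≤ u → pre (yb cY u) (nn cY G m t) = pre (yb cY t) (nn cY G m t) := by
    intro u hu
    refine pre_eq_iff.2 fun i hi => ?_
    have h1 := pre_eq_iff.1 hp i hi
    cases h2 : yb cY t i with
    | true => exact yb_mono hu h2
    | false =>
      rw [h2] at h1
      cases h3 : yb cY u i with
      | false => rfl
      | true =>
        have h4 := bo_eq_true.2 (yb_sound hcY h3)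
        rw [← h1] at h4
        exact absurd h4 (by decide)
  intro u hu
  have h1 := nn_stable hu h0 (key u hu)
  rw [bel_iff, h1]
  exact ⟨h0.trans hu, (key (u + 1) (hu.trans (Nat.le_succ u))).trans (key u hu).symm⟩

/-! ### computability -/

theorem primrec_yb (cY : Code) : Primrec fun p : ℕ × ℕ => yb cY p.1 p.2 :=
  Primrec.option_isSome.comp (Code.primrec_evaln.comp
    ((Primrec.fst.pair (Primrec.const cY)).pair Primrec.snd))

theorem primrec_pre_yb (cY : Code) : Primrec fun p : ℕ × ℕ => pre (yb cY p.1) p.2 := by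
  unfold pre
  refine Primrec.list_map (Primrec.list_range.comp Primrec.snd) ?_
  exact (primrec_yb cY).comp ((Primrec.fst.comp Primrec.fst).pair Primrec.snd)

theorem primrec_nn (cY : Code) (hG : Primrec₂ G) :
    Primrec fun p : ℕ × ℕ => nn cY G p.1 p.2 := by
  unfold nn
  refine Primrec.list_findIdx (Primrec.list_range.comp (Primrec.succ.comp Primrec.snd)) ?_
  exact Primrec.option_isSome.comp (hG.comp ((primrec_pre_yb cY).comp
    ((Primrec.snd.comp Primrec.fst).pair Primrec.snd)) (Primrec.fst.comp Primrec.fst))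

theorem primrec_bel (cY : Code) (hG : Primrec₂ G) :
    Primrec fun p : ℕ × ℕ => bel cY G p.1 p.2 := by
  unfold bel
  have h1 := primrec_nn cY hG
  refine Primrec.and.comp (PrimrecPred.decide (Primrec.nat_le.comp h1 Primrec.snd)) ?_
  refine PrimrecPred.decide (Primrec.eq.comp ?_ ?_)
  · exact (primrec_pre_yb cY).comp ((Primrec.succ.comp Primrec.snd).pair h1)
  · exact (primrec_pre_yb cY).comp (Primrec.snd.pair h1)

theorem fam_re (cY cH : Code) (hG : Primrec₂ G) (s : ℕ) : REPred (sj (fam cY cH G s)) := by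
  have hb : Primrec fun p : ℕ × ℕ => (yb cY (p.2 + s) (Nat.unpair p.1).2 &&
      (decide (p.2 = 0) || !(bel cH G (Nat.unpair p.1).1 p.2))) := by
    have hk : Primrec fun p : ℕ × ℕ => p.2 + s := Primrec.nat_add.comp Primrec.snd (Primrec.const s)
    have hm : Primrec fun p : ℕ × ℕ => (Nat.unpair p.1).1 :=
      Primrec.fst.comp (Primrec.unpair.comp Primrec.fst)
    have hz : Primrec fun p : ℕ × ℕ => (Nat.unpair p.1).2 :=
      Primrec.snd.comp (Primrec.unpair.comp Primrec.fst)
    refine Primrec.and.comp ((primrec_yb cY).comp (hk.pair hz)) (Primrec.or.comp ?_ ?_)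
    · exact PrimrecPred.decide (Primrec.eq.comp Primrec.snd (Primrec.const 0))
    · exact Primrec.not.comp ((primrec_bel cH hG).comp (hm.pair Primrec.snd))
  have h1 : PrimrecPred fun p : ℕ × ℕ => (yb cY (p.2 + s) (Nat.unpair p.1).2 &&
      (decide (p.2 = 0) || !(bel cH G (Nat.unpair p.1).1 p.2))) = true :=
    Primrec.eq.comp hb (Primrec.const true)
  refine (Pool.Agent.Helper4RED.re_of_primrec (q := fun n t => (yb cY (t + s) (Nat.unpair n).2 &&
      (decide (t = 0) || !(bel cH G (Nat.unpair n).1 t))) = true) h1).of_eq fun n => ?_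
  unfold sj fam
  simp only [Bool.and_eq_true, Bool.or_eq_true, decide_eq_true_eq, Bool.not_eq_true']

theorem pc_eq_iff {x y : ℕ → Bool} {n : ℕ} : H19.pc x n = H19.pc y n ↔ ∀ i < n, x i = y i := by
  constructor
  · intro h i hi
    have h1 := congrArg (fun j => Nat.testBit j i) h
    simpa [H19.testBit_pc, hi] using h1
  · intro h
    apply Nat.eq_of_testBit_eq
    intro i
    rw [H19.testBit_pc, H19.testBit_pc]
    by_cases hi : i < n
    · rw [h i hi]
    · simp [hi]

theorem primrec_pc_yb (cY : Code) : Primrec fun p : ℕ × ℕ => H19.pc (yb cY p.1) p.2 := by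
  unfold H19.pc
  have h2 : Primrec fun b : Bool => b.toNat := Primrec.dom_finite _
  refine Primrec.nat_rec' (g := fun _ : ℕ × ℕ => 0)
    (h := fun (p : ℕ × ℕ) (q : ℕ × ℕ) => 2 ^ q.1 * (yb cY p.1 q.1).toNat + q.2)
    Primrec.snd (Primrec.const 0) ?_
  have hq1 : Primrec fun r : (ℕ × ℕ) × (ℕ × ℕ) => r.2.1 := Primrec.fst.comp Primrec.snd
  refine Primrec.nat_add.comp (Primrec.nat_mul.comp
    (H21.pow_prim.comp (Primrec.const 2) hq1) (h2.comp ((primrec_yb cY).comp
      ((Primrec.fst.comp Primrec.fst).pair hq1)))) (Primrec.snd.comp Primrec.snd)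

theorem fam_le {cH : Code} {H : ℕ → Prop} (hcY : ∀ z, Y z ↔ (cY.eval z).Dom)
    (hcH : ∀ z, H z ↔ (cH.eval z).Dom) (hYH : Le Y H) (hG : Primrec₂ G) (s : ℕ) :
    Le (sj (fam cY cH G s)) H := by
  have hex : ∀ z, ∃ k, ¬ Y z ∨ yb cY (k + s) z = true := by
    intro z
    by_cases hz : Y z
    · obtain ⟨k, hk⟩ := yb_complete hcY hz
      exact ⟨k, Or.inr (yb_mono (Nat.le_add_right k s) hk)⟩
    · exact ⟨0, Or.inl hz⟩
  classical
  let g : ℕ → ℕ := fun n => Nat.find (hex (Nat.unpair n).2)
  have hsnd : Primrec fun n : ℕ => (Nat.unpair n).2 := Primrec.snd.comp Primrec.unpair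
  have hfst : Primrec fun n : ℕ => (Nat.unpair n).1 := Primrec.fst.comp Primrec.unpair
  have htn : Primrec fun b : Bool => b.toNat := Primrec.dom_finite _
  have hmul : TR (bo H) fun n => (Nat.unpair n).1 * (Nat.unpair n).2 :=
    TR.prim (Primrec.nat_mul.comp hfst hsnd)
  -- the search
  let f : ℕ → ℕ := fun q => (bo Y (Nat.unpair (Nat.unpair q).1).2).toNat *
    (!(yb cY ((Nat.unpair q).2 + s) (Nat.unpair (Nat.unpair q).1).2)).toNat
  have hf : TR (bo H) f := by
    have h1 : TR (bo H) fun q => (bo Y (Nat.unpair (Nat.unpair q).1).2).toNat :=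
      (TR.of_le hYH).comp (TR.prim (hsnd.comp hfst))
    have h2 : Primrec fun q : ℕ =>
        (!(yb cY ((Nat.unpair q).2 + s) (Nat.unpair (Nat.unpair q).1).2)).toNat :=
      htn.comp (Primrec.not.comp ((primrec_yb cY).comp
        ((Primrec.nat_add.comp hsnd (Primrec.const s)).pair (hsnd.comp hfst))))
    have h3 := hmul.comp (h1.pair (TR.prim h2))
    refine Nat.RecursiveIn.of_eq h3 fun q => ?_
    simp only [Nat.unpair_pair]
    rfl
  have hg : TR (bo H) g := by
    refine TR.rfind hf (fun a => ?_) fun a n hn => ?_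
    · have h1 := Nat.find_spec (hex (Nat.unpair a).2)
      simp only [f, Nat.unpair_pair]
      rcases h1 with h1 | h1
      · have h2 : bo Y (Nat.unpair a).2 = false := by
          rw [← Bool.not_eq_true, bo_eq_true]
          exact h1
        rw [h2]
        simp
      · have h2 : yb cY (g a + s) (Nat.unpair a).2 = true := h1
        rw [h2]
        simp
    · have h1 := Nat.find_min (hex (Nat.unpair a).2) hn
      rw [not_or, not_not] at h1
      simp only [f, Nat.unpair_pair]
      rw [bo_eq_true.2 h1.1]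
      have h2 : yb cY (n + s) (Nat.unpair a).2 = false := by
        rw [← Bool.not_eq_true]
        exact h1.2
      rw [h2]
      simp
  -- the length and the code of the initial segment of `Y`
  have hnn : TR (bo H) fun n => nn cH G (Nat.unpair n).1 (g n) := by
    have h1 : Primrec fun q : ℕ => nn cH G (Nat.unpair (Nat.unpair q).1).1 (Nat.unpair q).2 :=
      (primrec_nn cH hG).comp ((hfst.comp hfst).pair hsnd)
    have hid : TR (bo H) fun n => n := TR.prim Primrec.id
    have h2 := (TR.prim (x := bo H) h1).comp (hid.pair hg)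
    refine Nat.RecursiveIn.of_eq h2 fun q => ?_
    simp only [Nat.unpair_pair]
  have hpc : TR (bo H) fun n => H19.pc (bo H) (nn cH G (Nat.unpair n).1 (g n)) :=
    (H19.TR_pc (bo H)).comp hnn
  -- the last step
  let h : ℕ → ℕ := fun q =>
    (decide ((Nat.unpair (Nat.unpair q).2).1 = 0) ||
      !(decide (nn cH G (Nat.unpair (Nat.unpair q).1).1 (Nat.unpair (Nat.unpair q).2).1 ≤
          (Nat.unpair (Nat.unpair q).2).1) &&
        decide (H19.pc (yb cH (Nat.unpair (Nat.unpair q).2).1)
          (nn cH G (Nat.unpair (Nat.unpair q).1).1 (Nat.unpair (Nat.unpair q).2).1) =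
            (Nat.unpair (Nat.unpair q).2).2))).toNat
  have hh : Primrec h := by
    have hT : Primrec fun q : ℕ => (Nat.unpair (Nat.unpair q).2).1 := hfst.comp hsnd
    have hc : Primrec fun q : ℕ => (Nat.unpair (Nat.unpair q).2).2 := hsnd.comp hsnd
    have hm : Primrec fun q : ℕ => (Nat.unpair (Nat.unpair q).1).1 := hfst.comp hfst
    have hn : Primrec fun q : ℕ =>
        nn cH G (Nat.unpair (Nat.unpair q).1).1 (Nat.unpair (Nat.unpair q).2).1 :=
      (primrec_nn cH hG).comp (hm.pair hT)
    refine htn.comp (Primrec.or.comp ?_ (Primrec.not.comp (Primrec.and.comp ?_ ?_)))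
    · exact PrimrecPred.decide (Primrec.eq.comp hT (Primrec.const 0))
    · exact PrimrecPred.decide (Primrec.nat_le.comp hn hT)
    · exact PrimrecPred.decide (Primrec.eq.comp ((primrec_pc_yb cH).comp (hT.pair hn)) hc)
  have hid : TR (bo H) fun n => n := TR.prim Primrec.id
  have h1 : TR (bo H) fun n => (bo Y (Nat.unpair n).2).toNat :=
    (TR.of_le hYH).comp (TR.prim hsnd)
  have h3 := (TR.prim (x := bo H) hh).comp (hid.pair (hg.pair hpc))
  have h4 := hmul.comp (h1.pair h3)
  refine TR.to_le (Nat.RecursiveIn.of_eq h4 fun n => ?_)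
  have key : bo (sj (fam cY cH G s)) n = (bo Y (Nat.unpair n).2 &&
      (decide (g n = 0) || !(decide (nn cH G (Nat.unpair n).1 (g n) ≤ g n) &&
        decide (H19.pc (yb cH (g n)) (nn cH G (Nat.unpair n).1 (g n)) =
          H19.pc (bo H) (nn cH G (Nat.unpair n).1 (g n)))))) := by
    rw [Bool.eq_iff_iff, bo_eq_true]
    simp only [Bool.and_eq_true, Bool.or_eq_true, Bool.not_eq_true', Bool.and_eq_false_iff,
      decide_eq_true_eq, decide_eq_false_iff_not, bo_eq_true]
    unfold sj fam
    constructor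
    · rintro ⟨t, ht1, ht2⟩
      refine ⟨yb_sound hcY ht1, ?_⟩
      have h5 : g n ≤ t := Nat.find_min' (hex (Nat.unpair n).2) (Or.inr ht1)
      rcases ht2 with ht2 | ht2
      · left
        omega
      · right
        by_contra hcon
        rw [not_or, not_not, not_not] at hcon
        have h6 := bel_of hcH hcon.1 (pre_eq_iff.2 (pc_eq_iff.1 hcon.2)) t h5
        rw [h6] at ht2
        exact absurd ht2 (by decide)
    · rintro ⟨hY, h5⟩
      have h6 : yb cY (g n + s) (Nat.unpair n).2 = true := by
        rcases Nat.find_spec (hex (Nat.unpair n).2) with h6 | h6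
        · exact absurd hY h6
        · exact h6
      rcases h5 with h5 | h5
      · exact ⟨g n, h6, Or.inl h5⟩
      · have h7 : ∃ u, g n ≤ u ∧ bel cH G (Nat.unpair n).1 u = false := by
          by_contra hcon
          push Not at hcon
          have h8 := bel_all hcH (m := (Nat.unpair n).1) (t := g n) fun u hu => by
            have := hcon u hu
            rwa [Bool.ne_false_iff] at this
          rcases h5 with h5 | h5
          · exact h5 h8.1
          · exact h5 (pc_eq_iff.2 (pre_eq_iff.1 h8.2))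
        obtain ⟨u, hu, hu'⟩ := h7
        exact ⟨u, yb_mono (Nat.add_le_add_right hu s) h6, Or.inr hu'⟩
  simp only [Nat.unpair_pair, h]
  rw [key]
  cases bo Y (Nat.unpair n).2
  · simp
  · simp

end

end Pool.Agent.Helper25UAU
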