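import Pool.Agent.Helper25_UAU.Diag

/-!
# MP_f28000_lc: one-sided sequence maps, the dichotomy with the jump
-/

set_option autoImplicit false

open Nat.Partrec (Code)
open Pool.Agent.Helper25TD
open Pool.Agent.EFA

namespace Pool.Agent.Helper25UAU

theorem JumpLe.trans {H X Z : ℕ → Prop} (h : JumpLe H X) (h' : Le X Z) : JumpLe H Z :=
  fun f hf => TLE.trans (h f hf) h'

theorem recursiveIn_mono {H Y : ℕ → Prop} (h : Le H Y) {f : ℕ →. ℕ}
    (hf : Nat.RecursiveIn {chi (bo H)} f) : Nat.RecursiveIn {chi (bo Y)} f := by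
  refine Nat.RecursiveIn.subst hf ?_
  intro g hg
  rw [Set.mem_singleton_iff] at hg
  subst hg
  exact RecursiveIn.iff_nat.1 h

theorem JumpLe.of_le {H Y X : ℕ → Prop} (h : JumpLe Y X) (h' : Le H Y) : JumpLe H X :=
  fun f hf => h f (recursiveIn_mono h' hf)

theorem mainJ {F : (ℕ → Prop) → (ℕ → Prop)} (hF : Up F)
    (h0 : Computable (bo (F fun _ => False))) {A : ℕ → Prop} (hA : REPred A) :
    ∃ Y : ℕ → Prop, REPred Y ∧ Le A Y ∧ Le Y A ∧
      ((∀ H, REPred H → Le Y H → JumpLe H (F H)) ∨
        (Le (F Y) Y ∧ ∀ y, ∃ j, bo (F Y) y = bo (F (fs j)) y)) := by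
  obtain ⟨V, hV, hVF⟩ := exists_V hF h0
  obtain ⟨N, hN, hmod⟩ := exists_N hF h0 hV hVF
  obtain ⟨r, hr, hgap, hbd⟩ := H59.spr N hN
  obtain ⟨hYre, hAY, hYA⟩ := H23.cod r hr hgap A hA
  obtain ⟨Y, hYdef⟩ : ∃ Y : ℕ → Prop, Y = fun z => ∃ x, A x ∧ r x = z := ⟨_, rfl⟩
  rw [← hYdef] at hYre hAY hYA
  have hYr : ∀ z, Y z → ∃ k, r k = z := by
    intro z hz
    rw [hYdef] at hz
    obtain ⟨x, -, hx⟩ := hz
    exact ⟨x, hx⟩
  refine ⟨Y, hYre, hAY, hYA, ?_⟩
  by_cases h : ∀ y j, (∀ x, Nat.testBit j x = (decide (x < r y + 1) && bo Y x)) →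
      V j y = (bo (F Y) y).toNat
  · refine Or.inr ⟨H19.cmp V hV r hr Y (F Y) h, fun y => ⟨H19.pc (bo Y) (r y + 1), ?_⟩⟩
    have h1 := h y _ fun x => H19.testBit_pc (bo Y) (r y + 1) x
    rw [hVF] at h1
    cases h2 : bo (F Y) y <;> cases h3 : bo (F (fs (H19.pc (bo Y) (r y + 1)))) y <;>
      rw [h2, h3] at h1 <;> simp_all
  · refine Or.inl fun H hH hYH f hf => ?_
    push Not at h
    obtain ⟨y, j, hj, hne⟩ := h
    obtain ⟨cY, hcY⟩ := H36.exists_cH hYre
    obtain ⟨cH, hcH⟩ := H36.exists_cH hH
    obtain ⟨G, hG, hGs, hGc⟩ := Helper56TB.exists_approx (bo H) hf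
    obtain ⟨s, hs⟩ := exists_stage hcY (r y + 1)
    have h1 := hF (fam cY cH G s) H (fam_re cY cH hG s) hH (fam_le hcY hcH hYH hG s)
    have hsub : ∀ m z, fam cY cH G s m z → Y z := by
      rintro m z ⟨k, hk, -⟩
      exact yb_sound hcY hk
    have hno : ∀ m, ¬ (f m).Dom → bo (F (fam cY cH G s m)) y = bo (F Y) y := by
      intro m hm
      have h2 : fam cY cH G s m = Y := by
        funext z
        refine propext ⟨hsub m z, fun hz => ?_⟩
        obtain ⟨k, hk⟩ := yb_complete hcY hz
        have h3 : ∃ u, k ≤ u ∧ bel cH G m u = false := by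
          by_contra hcon
          push Not at hcon
          have h4 := bel_all hcH (m := m) (t := k) fun u hu => by
            have := hcon u hu
            rwa [Bool.ne_false_iff] at this
          have h5 := nn_spec h4.1
          rw [h4.2] at h5
          obtain ⟨v, hv⟩ := Option.isSome_iff_exists.1 h5
          exact hm (Part.dom_iff_mem.2 ⟨v, hGs _ _ _ hv⟩)
        obtain ⟨u, hu, hu'⟩ := h3
        exact ⟨u, yb_mono (hu.trans (Nat.le_add_right u s)) hk, Or.inr hu'⟩
      rw [h2]
    have hyes : ∀ m, (f m).Dom → bo (F (fam cY cH G s m)) y ≠ bo (F Y) y := by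
      intro m hm
      -- the true computation
      have hex : ∃ n, (G (pre (bo H) n) m).isSome = true := by
        obtain ⟨v, hv⟩ := Part.dom_iff_mem.1 hm
        obtain ⟨n, hn⟩ := hGc _ _ hv
        exact ⟨n, Option.isSome_iff_exists.2 ⟨v, hn n le_rfl⟩⟩
      let n₀ := Nat.find hex
      obtain ⟨t₀, ht₀⟩ := exists_stage hcH n₀
      let T := max t₀ n₀
      have hpre : ∀ k ≤ n₀, pre (yb cH T) k = pre (bo H) k := by
        intro k hk
        refine pre_eq_iff.2 fun i hi => ?_
        rw [Bool.eq_iff_iff, bo_eq_true]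
        exact ⟨yb_sound hcH, fun hYi => yb_mono (le_max_left t₀ n₀) (ht₀ i (hi.trans_le hk) hYi)⟩
      have hnn : nn cH G m T = n₀ := by
        refine nn_eq (le_max_right t₀ n₀) ?_ fun k hk => ?_
        · rw [hpre n₀ le_rfl]
          exact Nat.find_spec hex
        · rw [hpre k hk.le]
          have := Nat.find_min hex hk
          rwa [Bool.not_eq_true] at this
      have hbel : ∀ u, T ≤ u → bel cH G m u = true := by
        refine bel_of hcH ?_ ?_
        · rw [hnn]
          exact le_max_right t₀ n₀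
        · rw [hnn]
          exact hpre n₀ le_rfl
      have hfin : ∀ x, T + s ≤ x → bo (fam cY cH G s m) x = false := by
        intro x hx
        rw [← Bool.not_eq_true, bo_eq_true]
        rintro ⟨k, hk1, hk2⟩
        obtain ⟨v, hv⟩ := Option.isSome_iff_exists.1 hk1
        have h2 := Code.evaln_bound hv
        rcases hk2 with hk2 | hk2
        · omega
        · have h3 : k < T := by
            by_contra hcon
            rw [hbel k (not_lt.1 hcon)] at hk2
            exact absurd hk2 (by decide)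
          omega
      obtain ⟨j', hj'⟩ := H36.exists_fs (T + s) (bo (fam cY cH G s m)) hfin
      have h2 : fam cY cH G s m = fs j' := by
        funext z
        unfold fs
        rw [hj', bo_eq_true]
      have h3 : V j' y = V (j' % 2 ^ (r y + 1)) y := by
        refine V_mod hgap hbd hmod (fun x hx => ?_) y
        rw [hj', bo_eq_true] at hx
        exact hYr x (hsub m x hx)
      have h4 : j' % 2 ^ (r y + 1) = j := by
        apply Nat.eq_of_testBit_eq
        intro x
        rw [Nat.testBit_mod_two_pow, hj, hj']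
        by_cases hx : x < r y + 1
        · have h5 : bo (fam cY cH G s m) x = bo Y x := by
            refine bo_congr ⟨hsub m x, fun hYx => ⟨0, ?_, Or.inl rfl⟩⟩
            rw [Nat.zero_add]
            exact hs x hx hYx
          rw [h5]
        · simp [hx]
      intro h5
      apply hne
      rw [← h4, ← h3, hVF, ← h2, h5]
    refine TLE.trans ?_ h1
    refine SQM.tle_sel (x := bo (sj fun i => F (fam cY cH G s i))) (y := fun _ => !(bo (F Y) y))
      (z := fun _ => bo (F Y) y) (f := fun n => Nat.pair n y) (g := fun n => n)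
      (Primrec₂.natPair.comp Primrec.id (Primrec.const y)) Primrec.id (TLE.refl _)
      (SQM.tle_const _ _) (SQM.tle_const _ _) ?_
    intro n
    rw [bo_sj_pair]
    by_cases hn : (f n).Dom
    · have h2 := hyes n hn
      have h5 : bo (fun m => (f m).Dom) n = true := bo_eq_true.2 hn
      rw [h5]
      cases h3 : bo (F (fam cY cH G s n)) y <;> cases h4 : bo (F Y) y <;> simp_all
    · have h2 := hno n hn
      have h5 : bo (fun m => (f m).Dom) n = false := by
        rw [← Bool.not_eq_true, bo_eq_true]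
        exact hn
      rw [h5, h2]
      cases bo (F Y) y <;> rfl

/-- **The upper cone.** If `F H` is not computable from `H` then the jump of every r.e. set above
`H` is computable from its image. -/
theorem upJ {F : (ℕ → Prop) → (ℕ → Prop)} (hF : Up F)
    (h0 : Computable (bo (F fun _ => False))) {H : ℕ → Prop} (hH : REPred H) :
    Le (F H) H ∨ ∀ G, REPred G → Le H G → JumpLe G (F G) := by
  obtain ⟨Y, hY, hHY, hYH, h⟩ := mainJ hF h0 hH
  rcases h with h | ⟨h, -⟩
  · exact Or.inr fun G hG hHG => h G hG (TLE.trans hYH hHG)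
  · exact Or.inl (TLE.trans (up_le hF hH hY hHY) (TLE.trans h hYH))

/-- **The dichotomy.** -/
theorem dichJ {F : (ℕ → Prop) → (ℕ → Prop)} (hF : Up F)
    (h0 : Computable (bo (F fun _ => False))) :
    (∀ H, REPred H → Le H (F H)) ∨ (∀ H, REPred H → Le (F H) H → Computable (bo (F H))) := by
  by_cases hc : ∀ j, F (fs j) = F fun _ => False
  · refine Or.inr fun H hH hle => ?_
    obtain ⟨Y, hY, hHY, hYH, h⟩ := mainJ hF h0 hH
    rcases h with h | ⟨-, h⟩
    · exact absurd ((h H hH hYH).trans hle) (not_jumpLe_self H)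
    · have h1 : F Y = F fun _ => False := by
        funext y
        obtain ⟨j, hj⟩ := h y
        rw [hc j] at hj
        rw [← bo_eq_true (A := F Y), ← bo_eq_true (A := F fun _ => False), hj]
      have h2 := up_le hF hH hY hHY
      rw [h1] at h2
      exact comp_of_le h0 h2
  · left
    push Not at hc
    obtain ⟨j, hj⟩ := hc
    exact fun H hH => le_image hF (re_of_comp (fs_comp j)) hH (le_of_comp (fs_comp j) H) hj

/-- the universal r.e. set -/
def uni (z : ℕ) : Prop := ((Denumerable.ofNat Code z.unpair.1).eval z.unpair.2).Dom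

theorem re_uni : REPred uni := by
  have h1 : Partrec fun z : ℕ => (Denumerable.ofNat Code z.unpair.1).eval z.unpair.2 :=
    Code.eval_part.comp (((Primrec.ofNat Code).comp
      (Primrec.fst.comp Primrec.unpair)).to_comp) (Primrec.snd.comp Primrec.unpair).to_comp
  exact h1.dom_re

theorem le_uni {S : ℕ → Prop} (hS : REPred S) : Le S uni := by
  obtain ⟨c, hc⟩ := H36.exists_cH hS
  refine SQM.sub_le (f := fun n => Nat.pair (Encodable.encode c) n)
    (Primrec₂.natPair.comp (Primrec.const _) Primrec.id) fun n => ?_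
  unfold uni
  rw [hc, Nat.unpair_pair]
  simp only [Denumerable.ofNat_encode]

/-- **Maps of r.e. sets to r.e. sets.** -/
theorem selfJ {F : (ℕ → Prop) → (ℕ → Prop)} (hF : Up F)
    (h0 : Computable (bo (F fun _ => False))) (hre : ∀ A, REPred A → REPred (F A)) :
    (∀ H, REPred H → Le (F H) H ∧ Le H (F H)) ∨ (∀ H, REPred H → Computable (bo (F H))) := by
  have h1 : ∀ H, REPred H → Le (F H) H := by
    intro H hH
    rcases upJ hF h0 hH with h | h
    · exact h
    · exact absurd ((h uni re_uni (le_uni hH)).trans (le_uni (hre uni re_uni)))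
        (not_jumpLe_self uni)
  rcases dichJ hF h0 with h | h
  · exact Or.inl fun H hH => ⟨h1 H hH, h H hH⟩
  · exact Or.inr fun H hH => h H hH (h1 H hH)

end Pool.Agent.Helper25UAU
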