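import Pool.Agent.EFA.Stmts
import Pool.Agent.Helper59_EFA.SPR
import Pool.Agent.Helper19_EFA.CMP
import Pool.Agent.Helper23_EFA.COD
import Pool.Agent.Helper21_EFA.KLS
import Pool.Agent.Helper74_EFA.REC
import Pool.Agent.Helper36_EFA.RowCon
import Pool.Agent.Helper26_SQM.Core

/-!
# MP_f28000_lc: maps of r.e. sets which respect the uniform reducibility of sequences in one direction

Values at the finite sets, and a computable modulus for one-point extensions of finite sets.
-/

set_option autoImplicit false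

open Nat.Partrec (Code)
open Pool.Agent.Helper25TD
open Pool.Agent.EFA

namespace Pool.Agent.Helper25UAU

/-- the join of a sequence of sets -/
def sj (C : ℕ → ℕ → Prop) : ℕ → Prop := fun n => C (Nat.unpair n).1 (Nat.unpair n).2

/-- `F` respects the uniform reducibility of sequences -/
def Up (F : (ℕ → Prop) → (ℕ → Prop)) : Prop :=
  ∀ (C : ℕ → ℕ → Prop) (H : ℕ → Prop), REPred (sj C) → REPred H → Le (sj C) H →
    Le (sj fun i => F (C i)) (F H)

theorem bo_eq_true {A : ℕ → Prop} {n : ℕ} : bo A n = true ↔ A n := by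
  unfold bo
  simp

theorem bo_congr {A B : ℕ → Prop} {m n : ℕ} (h : A m ↔ B n) : bo A m = bo B n := by
  rw [Bool.eq_iff_iff, bo_eq_true, bo_eq_true]
  exact h

theorem bo_sj_pair (C : ℕ → ℕ → Prop) (i y : ℕ) : bo (sj C) (Nat.pair i y) = bo (C i) y := by
  refine bo_congr ?_
  unfold sj
  rw [Nat.unpair_pair]

theorem re_of_comp {A : ℕ → Prop} (h : Computable (bo A)) : REPred A := by
  have h2 : ComputablePred A := ⟨fun n => Classical.propDecidable _, h⟩
  exact h2.to_re

theorem bo_false : bo (fun _ => False) = fun _ => false := by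
  funext n
  unfold bo
  simp

theorem re_false : REPred fun _ : ℕ => False := by
  refine re_of_comp ?_
  rw [bo_false]
  exact Computable.const false

theorem le_of_comp {A : ℕ → Prop} (h : Computable (bo A)) (B : ℕ → Prop) : Le A B :=
  (H74.chi_partrec h).recursiveIn

theorem comp_of_le {A B : ℕ → Prop} (hB : Computable (bo B)) (h : Le A B) : Computable (bo A) := by
  refine H74.of_chi (RecursiveIn.partrec_of_oracle ?_ h)
  intro g hg
  rw [Set.mem_singleton_iff.1 hg]
  exact H74.chi_partrec hB

/-- the images of a computable sequence form a computable sequence -/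
theorem comp_seq {F : (ℕ → Prop) → (ℕ → Prop)} (hF : Up F)
    (h0 : Computable (bo (F fun _ => False))) {C : ℕ → ℕ → Prop}
    (hC : Computable (bo (sj C))) : Computable (bo (sj fun i => F (C i))) :=
  comp_of_le h0 (hF C _ (re_of_comp hC) re_false (le_of_comp hC _))

theorem testBit_comp : Computable fun p : ℕ × ℕ => Nat.testBit p.1 p.2 := by
  have h1 : Primrec fun p : ℕ × ℕ => (H21.mm p.1 p.2 == 1) :=
    Primrec.beq.comp (H21.mm_prim.comp Primrec.fst Primrec.snd) (Primrec.const 1)
  refine (h1.of_eq fun p => ?_).to_comp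
  rw [H21.mm_eq]
  cases Nat.testBit p.1 p.2 <;> rfl

theorem exists_V {F : (ℕ → Prop) → (ℕ → Prop)} (hF : Up F)
    (h0 : Computable (bo (F fun _ => False))) :
    ∃ V : ℕ → ℕ → ℕ, Computable₂ V ∧ ∀ j y, V j y = (bo (F (fs j)) y).toNat := by
  have h1 : Computable (bo (sj fs)) := by
    refine (testBit_comp.comp Computable.unpair).of_eq fun n => ?_
    rw [Bool.eq_iff_iff, bo_eq_true]
    rfl
  have h2 := comp_seq hF h0 h1
  refine ⟨fun j y => (bo (F (fs j)) y).toNat, ?_, fun _ _ => rfl⟩
  have h3 : Computable fun p : ℕ × ℕ => (bo (sj fun i => F (fs i)) (Nat.pair p.1 p.2)).toNat := by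
    have h4 : Primrec fun b : Bool => b.toNat := Primrec.dom_finite _
    exact h4.to_comp.comp (h2.comp (Primrec₂.natPair.to_comp.comp Computable.fst Computable.snd))
  refine h3.of_eq fun p => ?_
  rw [bo_sj_pair]

/-! ### The modulus -/

/-- the finite set of the index `i` -/
def ij (i : ℕ) : ℕ := i.unpair.1.unpair.1

/-- the point of the index `i` -/
def iy (i : ℕ) : ℕ := i.unpair.1.unpair.2

/-- the code of the index `i` -/
def ie (i : ℕ) : Code := Denumerable.ofNat Code i.unpair.2

/-- `x` is a place where the sequence can contradict the code -/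
def bad (V : ℕ → ℕ → ℕ) (i x : ℕ) : Bool :=
  (decide (Code.evaln x (ie i) (Nat.pair i (iy i)) = some (V (ij i) (iy i))) &&
    decide (ij i < 2 ^ x)) && !decide (V (ij i + 2 ^ x) (iy i) = V (ij i) (iy i))

/-- the number of the bad places below `x` -/
def cnt (V : ℕ → ℕ → ℕ) (i x : ℕ) : ℕ := Nat.rec 0 (fun k ih => ih + (bad V i k).toNat) x

/-- the sequence -/
def sq (V : ℕ → ℕ → ℕ) (i x : ℕ) : Bool :=
  Nat.testBit (ij i) x || (bad V i x && decide (cnt V i x = 0))

theorem ij_prim : Primrec ij :=
  Primrec.fst.comp (Primrec.unpair.comp (Primrec.fst.comp Primrec.unpair))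

theorem iy_prim : Primrec iy :=
  Primrec.snd.comp (Primrec.unpair.comp (Primrec.fst.comp Primrec.unpair))

theorem ie_prim : Primrec ie := (Primrec.ofNat Code).comp (Primrec.snd.comp Primrec.unpair)

theorem bad_comp {V : ℕ → ℕ → ℕ} (hV : Computable₂ V) :
    Computable fun p : ℕ × ℕ => bad V p.1 p.2 := by
  have hj : Primrec fun p : ℕ × ℕ => ij p.1 := ij_prim.comp Primrec.fst
  have hy : Primrec fun p : ℕ × ℕ => iy p.1 := iy_prim.comp Primrec.fst
  have he : Primrec fun p : ℕ × ℕ => ie p.1 := ie_prim.comp Primrec.fst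
  have h2 : Primrec fun p : ℕ × ℕ => 2 ^ p.2 := H21.pow_prim.comp (Primrec.const 2) Primrec.snd
  have h3 : Primrec fun p : ℕ × ℕ => Code.evaln p.2 (ie p.1) (Nat.pair p.1 (iy p.1)) :=
    Code.primrec_evaln.comp ((Primrec.snd.pair he).pair (Primrec₂.natPair.comp Primrec.fst hy))
  have h4 : Computable fun p : ℕ × ℕ => V (ij p.1) (iy p.1) := hV.comp hj.to_comp hy.to_comp
  have h5 : Computable fun p : ℕ × ℕ => V (ij p.1 + 2 ^ p.2) (iy p.1) :=
    hV.comp (Primrec.nat_add.comp hj h2).to_comp hy.to_comp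
  have heq : Computable₂ fun a b : Option ℕ => decide (a = b) :=
    (PrimrecRel.decide Primrec.eq).to_comp
  have heq' : Computable₂ fun a b : ℕ => decide (a = b) :=
    (PrimrecRel.decide Primrec.eq).to_comp
  have h6 : Computable fun p : ℕ × ℕ =>
      decide (Code.evaln p.2 (ie p.1) (Nat.pair p.1 (iy p.1)) = some (V (ij p.1) (iy p.1))) :=
    heq.comp h3.to_comp (Computable.option_some.comp h4)
  have h7 : Computable fun p : ℕ × ℕ => decide (ij p.1 < 2 ^ p.2) :=
    (PrimrecPred.decide (Primrec.nat_lt.comp hj h2)).to_comp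
  have h8 : Computable fun p : ℕ × ℕ =>
      !decide (V (ij p.1 + 2 ^ p.2) (iy p.1) = V (ij p.1) (iy p.1)) :=
    Primrec.not.to_comp.comp (heq'.comp h5 h4)
  exact Primrec.and.to_comp.comp (Primrec.and.to_comp.comp h6 h7) h8

theorem cnt_comp {V : ℕ → ℕ → ℕ} (hV : Computable₂ V) :
    Computable fun p : ℕ × ℕ => cnt V p.1 p.2 := by
  have h1 : Computable₂ fun (p : ℕ × ℕ) (q : ℕ × ℕ) => q.2 + (bad V p.1 q.1).toNat := by
    have h2 : Computable fun r : (ℕ × ℕ) × (ℕ × ℕ) => bad V r.1.1 r.2.1 :=
      (bad_comp hV).comp ((Computable.fst.comp Computable.fst).pair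
        (Computable.fst.comp Computable.snd))
    have h4 : Primrec fun b : Bool => b.toNat := Primrec.dom_finite _
    exact Primrec.nat_add.to_comp.comp (Computable.snd.comp Computable.snd) (h4.to_comp.comp h2)
  exact Computable.nat_rec Computable.snd (Computable.const 0) h1

theorem testBit_comp₂ : Computable₂ fun a b : ℕ => Nat.testBit a b := testBit_comp

theorem ij1_comp : Computable fun p : ℕ × ℕ => ij p.1 := (ij_prim.comp Primrec.fst).to_comp

section

attribute [local irreducible] ij bad cnt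

theorem sq_comp {V : ℕ → ℕ → ℕ} (hV : Computable₂ V) :
    Computable fun p : ℕ × ℕ => sq V p.1 p.2 := by
  have h1 : Computable fun p : ℕ × ℕ => Nat.testBit (ij p.1) p.2 :=
    Computable₂.comp testBit_comp₂ ij1_comp Computable.snd
  have heq' : Primrec fun a : ℕ => decide (a = 0) :=
    PrimrecPred.decide (Primrec.eq.comp Primrec.id (Primrec.const 0))
  have h2 : Computable fun p : ℕ × ℕ => decide (cnt V p.1 p.2 = 0) :=
    heq'.to_comp.comp (cnt_comp hV)
  exact Primrec.or.to_comp.comp h1 (Primrec.and.to_comp.comp (bad_comp hV) h2)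

end

theorem cnt_succ (V : ℕ → ℕ → ℕ) (i x : ℕ) : cnt V i (x + 1) = cnt V i x + (bad V i x).toNat := rfl

theorem cnt_eq_zero (V : ℕ → ℕ → ℕ) (i x : ℕ) :
    cnt V i x = 0 ↔ ∀ k < x, bad V i k = false := by
  induction x with
  | zero => exact ⟨fun _ k hk => absurd hk (Nat.not_lt_zero k), fun _ => rfl⟩
  | succ x ih =>
    rw [cnt_succ, Nat.add_eq_zero_iff, ih]
    constructor
    · rintro ⟨h1, h2⟩ k hk
      rcases Nat.lt_succ_iff_lt_or_eq.1 hk with h | h
      · exact h1 k h
      · subst h
        cases hb : bad V i k with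
        | false => rfl
        | true => rw [hb] at h2; simp at h2
    · intro h
      refine ⟨fun k hk => h k (hk.trans (Nat.lt_succ_self x)), ?_⟩
      rw [h x (Nat.lt_succ_self x)]
      rfl

theorem sq_none {V : ℕ → ℕ → ℕ} {i : ℕ} (h : ∀ x, bad V i x = false) :
    (fun x => sq V i x = true) = fs (ij i) := by
  funext x
  unfold sq fs
  rw [h x]
  simp

theorem sq_some {V : ℕ → ℕ → ℕ} {i x₀ : ℕ} (h : bad V i x₀ = true)
    (hl : ∀ k < x₀, bad V i k = false) (hlt : ij i < 2 ^ x₀) :
    (fun x => sq V i x = true) = fs (ij i + 2 ^ x₀) := by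
  funext x
  have h1 : Nat.testBit (ij i + 2 ^ x₀) x = if x < x₀ then Nat.testBit (ij i) x else
      Nat.testBit 1 (x - x₀) := by
    have := Nat.testBit_two_pow_mul_add 1 hlt x
    rwa [mul_one, add_comm] at this
  unfold fs
  rw [h1]
  rcases lt_trichotomy x x₀ with h2 | h2 | h2
  · rw [if_pos h2]
    unfold sq
    rw [hl x h2]
    simp
  · subst h2
    rw [if_neg (lt_irrefl x), Nat.sub_self]
    unfold sq
    rw [h, (cnt_eq_zero V i x).2 hl]
    simp
  · rw [if_neg (not_lt.2 h2.le)]
    have h3 : Nat.testBit 1 (x - x₀) = false := by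
      obtain ⟨d, hd⟩ : ∃ d, x - x₀ = d + 1 := ⟨x - x₀ - 1, by omega⟩
      rw [hd, Nat.testBit_succ]
      simp
    have h4 : Nat.testBit (ij i) x = false :=
      Nat.testBit_lt_two_pow (hlt.trans_le (Nat.pow_le_pow_right (by norm_num) h2.le))
    have h5 : ¬ cnt V i x = 0 := by
      intro h6
      have := (cnt_eq_zero V i x).1 h6 x₀ h2
      rw [h] at this
      exact absurd this (by decide)
    unfold sq
    rw [h3, h4, decide_eq_false h5]
    simp

/-- a computable modulus for one-point extensions of finite sets -/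
theorem exists_N {F : (ℕ → Prop) → (ℕ → Prop)} (hF : Up F)
    (h0 : Computable (bo (F fun _ => False))) {V : ℕ → ℕ → ℕ} (hV : Computable₂ V)
    (hVF : ∀ j y, V j y = (bo (F (fs j)) y).toNat) :
    ∃ N : ℕ → ℕ → ℕ, Computable₂ N ∧
      ∀ j y x, N j y ≤ x → j < 2 ^ x → V (j + 2 ^ x) y = V j y := by
  -- the sequence is computable
  have hsj : Computable (bo (sj fun i x => sq V i x = true)) := by
    refine ((sq_comp hV).comp Computable.unpair).of_eq fun n => ?_
    rw [Bool.eq_iff_iff, bo_eq_true]
    rfl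
  have h1 := comp_seq hF h0 hsj
  obtain ⟨e, he⟩ := Code.exists_code.1 (Partrec.nat_iff.1 (H74.chi_partrec h1))
  have hev : ∀ i y, e.eval (Nat.pair i y) =
      Part.some (bo (F fun x => sq V i x = true) y).toNat := by
    intro i y
    rw [he]
    change Part.some (bo _ (Nat.pair i y)).toNat = _
    rw [bo_sj_pair]
  let I : ℕ → ℕ → ℕ := fun j y => Nat.pair (Nat.pair j y) (Encodable.encode e)
  have hI1 : ∀ j y, ij (I j y) = j := fun j y => by simp [ij, I]
  have hI2 : ∀ j y, iy (I j y) = y := fun j y => by simp [iy, I]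
  have hI3 : ∀ j y, ie (I j y) = e := fun j y => by simp [ie, I]
  have hex : ∀ j y, ∃ t, (Code.evaln t e (Nat.pair (I j y) y)).isSome = true := by
    intro j y
    have h2 : (bo (F fun x => sq V (I j y) x = true) y).toNat ∈ e.eval (Nat.pair (I j y) y) := by
      rw [hev]
      exact Part.mem_some _
    obtain ⟨t, ht⟩ := Code.evaln_complete.1 h2
    exact ⟨t, Option.isSome_iff_exists.2 ⟨_, ht⟩⟩
  let N : ℕ → ℕ → ℕ := fun j y => Nat.find (hex j y)
  have hN : Computable₂ N := by
    have h2 : Primrec fun p : (ℕ × ℕ) × ℕ =>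
        (Code.evaln p.2 e (Nat.pair (I p.1.1 p.1.2) p.1.2)).isSome := by
      refine Primrec.option_isSome.comp (Code.primrec_evaln.comp
        ((Primrec.snd.pair (Primrec.const e)).pair (Primrec₂.natPair.comp ?_
          (Primrec.snd.comp Primrec.fst))))
      exact Primrec₂.natPair.comp (Primrec₂.natPair.comp (Primrec.fst.comp Primrec.fst)
        (Primrec.snd.comp Primrec.fst)) (Primrec.const _)
    have h3 : Partrec₂ fun (p : ℕ × ℕ) (t : ℕ) =>
        (Part.some (Code.evaln t e (Nat.pair (I p.1 p.2) p.2)).isSome : Part Bool) :=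
      h2.to_comp.partrec
    have h4 := Partrec.rfind h3
    refine Partrec.of_eq h4 fun p => ?_
    refine Part.eq_some_iff.2 (Nat.mem_rfind.2 ⟨?_, fun {m} hm => ?_⟩)
    · exact Part.mem_some_iff.2 (Nat.find_spec (hex p.1 p.2)).symm
    · have h5 := Nat.find_min (hex p.1 p.2) hm
      rw [Bool.not_eq_true] at h5
      exact Part.mem_some_iff.2 h5.symm
  refine ⟨N, hN, ?_⟩
  intro j y x hx hj
  by_contra hne
  have h2 : (Code.evaln (N j y) e (Nat.pair (I j y) y)).isSome = true := Nat.find_spec (hex j y)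
  have h3 := H36.isSome_mono hx h2
  obtain ⟨v, hv⟩ := Option.isSome_iff_exists.1 h3
  have hsound : ∀ t w, Code.evaln t e (Nat.pair (I j y) y) = some w →
      w = (bo (F fun x => sq V (I j y) x = true) y).toNat := by
    intro t w hw
    have h4 : w ∈ e.eval (Nat.pair (I j y) y) := Code.evaln_sound hw
    rw [hev] at h4
    exact Part.mem_some_iff.1 h4
  have hbad : ∀ t, bad V (I j y) t = true ↔
      (Code.evaln t e (Nat.pair (I j y) y) = some (V j y) ∧ j < 2 ^ t) ∧
        ¬ V (j + 2 ^ t) y = V j y := by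
    intro t
    unfold bad
    rw [hI1, hI2, hI3]
    simp only [Bool.and_eq_true, decide_eq_true_eq, Bool.not_eq_true', decide_eq_false_iff_not]
  by_cases hvV : v = V j y
  · -- there is a bad place
    have hb : ∃ t, bad V (I j y) t = true := ⟨x, (hbad x).2 ⟨⟨by rw [hv, hvV], hj⟩, hne⟩⟩
    have h4 := Nat.find_spec hb
    have h5 := (hbad _).1 h4
    have h6 : ∀ k < Nat.find hb, bad V (I j y) k = false := fun k hk => by
      have := Nat.find_min hb hk
      rwa [Bool.not_eq_true] at this
    have h7 := sq_some h4 h6 (by rw [hI1]; exact h5.1.2)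
    have h8 := hsound x v hv
    rw [h7, hI1, ← hVF] at h8
    exact h5.2 (h8.symm.trans hvV)
  · have hb : ∀ t, bad V (I j y) t = false := by
      intro t
      by_contra hcon
      rw [Bool.not_eq_false, hbad] at hcon
      have h4 := hsound t _ hcon.1.1
      have h5 := hsound x v hv
      exact hvV (h5.trans h4.symm)
    have h4 := hsound x v hv
    rw [sq_none hb, hI1, ← hVF] at h4
    exact hvV h4

end Pool.Agent.Helper25UAU
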